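import Pool.Agent.Helper61.PV.St

/-!
# Project PV, module Sa1

Proportion of the polynomials divisible by `p` at `0` and `1`.
-/

set_option autoImplicit false

noncomputable section

namespace Pool.Agent.Helper77.PV

open Pool.Agent.Helper61.PV Finset

open Classical in
theorem natcard_filter {α : Type} (s : Finset α) (Q : α → Prop) :
    Nat.card {x // x ∈ s ∧ Q x} = (s.filter Q).card :=
  Nat.subtype_card _ (by simp)

/-- an interval of length `h` has at most `h / p + 1` members of a residue class -/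
theorem class_card (p h : ℕ) (a s : ℤ) (hp : 1 ≤ p) :
    (Nat.card {n : ℤ // n ∈ Ico a (a + h) ∧ (p : ℤ) ∣ n + s} : ℝ) ≤ (h : ℝ) / p + 1 := by
  have hp0 : (0 : ℝ) < p := by exact_mod_cast hp
  have hpz : (0 : ℤ) < p := by exact_mod_cast hp
  have h1 : Nat.card {n : ℤ // n ∈ Ico a (a + h) ∧ (p : ℤ) ∣ n + s} =
      ((Ico a (a + h)).filter (fun n => n ≡ -s [ZMOD p])).card := by
    apply Nat.subtype_card
    intro n
    rw [mem_filter, Int.modEq_iff_dvd]
    constructor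
    · rintro ⟨h1, h2⟩
      refine ⟨h1, ?_⟩
      rw [show -s - n = -(n + s) by ring] at h2
      exact (Int.dvd_neg).1 h2
    · rintro ⟨h1, h2⟩
      refine ⟨h1, ?_⟩
      rw [show -s - n = -(n + s) by ring]
      exact (Int.dvd_neg).2 h2
  rw [h1]
  have h2 := Int.Ico_filter_modEq_card (a := a) (b := a + h) (r := (p : ℤ)) hpz (-s)
  have h3 : (((Ico a (a + h)).filter (fun n => n ≡ -s [ZMOD p])).card : ℤ) ≤
      max (⌈(((a + h : ℤ) : ℚ) - ((-s : ℤ) : ℚ)) / ((p : ℤ) : ℚ)⌉ -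
        ⌈((a : ℤ) - ((-s : ℤ) : ℚ)) / ((p : ℤ) : ℚ)⌉) 0 := by
    refine le_trans (le_of_eq h2) (le_of_eq ?_)
    push_cast
    rfl
  have hpq : (0 : ℚ) < p := by exact_mod_cast hp
  have h4 : (⌈(((a + h : ℤ) : ℚ) - ((-s : ℤ) : ℚ)) / ((p : ℤ) : ℚ)⌉ : ℚ) -
      ⌈((a : ℤ) - ((-s : ℤ) : ℚ)) / ((p : ℤ) : ℚ)⌉ ≤ h / p + 1 := by
    have e1 := Int.ceil_lt_add_one ((((a + h : ℤ) : ℚ) - ((-s : ℤ) : ℚ)) / ((p : ℤ) : ℚ))
    have e2 := Int.le_ceil (((a : ℤ) - ((-s : ℤ) : ℚ)) / ((p : ℤ) : ℚ))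
    have e3 : (((a + h : ℤ) : ℚ) - ((-s : ℤ) : ℚ)) / ((p : ℤ) : ℚ) =
        ((a : ℤ) - ((-s : ℤ) : ℚ)) / ((p : ℤ) : ℚ) + h / p := by
      push_cast
      field_simp
      ring
    rw [e3] at e1
    rw [e3]
    linarith
  have h5 : ((((Ico a (a + h)).filter (fun n => n ≡ -s [ZMOD p])).card : ℤ) : ℚ) ≤ h / p + 1 := by
    have h6 : ((((Ico a (a + h)).filter (fun n => n ≡ -s [ZMOD p])).card : ℤ) : ℚ) ≤
        ((max (⌈(((a + h : ℤ) : ℚ) - ((-s : ℤ) : ℚ)) / ((p : ℤ) : ℚ)⌉ -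
        ⌈((a : ℤ) - ((-s : ℤ) : ℚ)) / ((p : ℤ) : ℚ)⌉) 0 : ℤ) : ℚ) := by exact_mod_cast h3
    refine le_trans h6 ?_
    rw [Int.cast_max]
    apply max_le
    · rw [Int.cast_sub]; exact h4
    · push_cast; positivity
  have h7 : (((((Ico a (a + h)).filter (fun n => n ≡ -s [ZMOD p])).card : ℤ) : ℚ) : ℝ) ≤
      ((h / p + 1 : ℚ) : ℝ) := by exact_mod_cast h5
  push_cast at h7
  exact h7

/-- sum of an updated vector -/
theorem sum_upd {d : ℕ} (g : Fin (d + 1) → ℤ) (i : Fin (d + 1)) (n : ℤ) :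
    ∑ j, Function.update g i n j = n + (∑ j, g j - g i) := by
  rw [sum_update_of_mem (mem_univ i), ← Finset.add_sum_erase univ g (mem_univ i)]
  rw [Finset.sdiff_singleton_eq_erase]
  ring

/-- **SA1** -/
theorem hSa1 (hFib : StFib) : StSa1 := by
  classical
  intro d H hd hH
  set A : Fin (d + 1) → ℤ := fun i => if (i : ℕ) < d then -(H : ℤ) else 1 with hA
  set h : Fin (d + 1) → ℕ := fun i => if (i : ℕ) < d then 2 * H + 1 else H with hh
  have hB : Bxx d H = Bx A h := rfl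
  have h0l : (0 : Fin (d + 1)) ≠ Fin.last d := by
    intro e
    have := congrArg Fin.val e
    simp at this
    omega
  have hAl : A (Fin.last d) = 1 := by simp [hA]
  have hhl : h (Fin.last d) = H := by simp [hh]
  have hA0 : A 0 = -(H : ℤ) := by
    have : ((0 : Fin (d + 1)) : ℕ) < d := by simp; omega
    simp only [hA]
    rw [if_pos this]
  have hh0 : h 0 = 2 * H + 1 := by
    have : ((0 : Fin (d + 1)) : ℕ) < d := by simp; omega
    simp only [hh]
    rw [if_pos this]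
  have hHr : (0 : ℝ) < H := by exact_mod_cast hH
  refine ⟨?_, ?_⟩
  · intro p hp
    have hp0 : (0 : ℝ) < p := by exact_mod_cast hp
    have f1 := hFib d A h (Fin.last d) (fun c => (p : ℤ) ∣ c 0 ∧ (p : ℤ) ∣ (∑ i, c i) - c 0)
    have f2 := hFib d A h 0 (fun c => (p : ℤ) ∣ c 0)
    rw [hhl, hAl] at f1
    rw [hh0, hA0] at f2
    set N1 : ℕ := Nat.card {c : Fin (d + 1) → ℤ // c ∈ Bx A h ∧ (p : ℤ) ∣ c 0 ∧
      (p : ℤ) ∣ (∑ i, c i) - c 0} with hN1
    set N2 : ℕ := Nat.card {c : Fin (d + 1) → ℤ // c ∈ Bx A h ∧ (p : ℤ) ∣ c 0} with hN2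
    have f1r : ((H : ℕ) : ℝ) * N1 ≤ ((H : ℝ) / p + 1) * N2 := by
      have e1 : ((H : ℕ) : ℝ) * N1 = ∑ g ∈ Bx A h, (Nat.card {n : ℤ // n ∈ Ico (1 : ℤ) (1 + H) ∧
          ((p : ℤ) ∣ Function.update g (Fin.last d) n 0 ∧
          (p : ℤ) ∣ (∑ i, Function.update g (Fin.last d) n i) -
            Function.update g (Fin.last d) n 0)} : ℝ) := by
        exact_mod_cast f1.symm
      rw [e1]
      have e2 : ((N2 : ℕ) : ℝ) = ∑ g ∈ Bx A h, if (p : ℤ) ∣ g 0 then (1 : ℝ) else 0 := by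
        rw [hN2, natcard_filter, card_filter]
        push_cast
        rfl
      rw [e2, mul_sum]
      refine sum_le_sum fun g _ => ?_
      by_cases hg : (p : ℤ) ∣ g 0
      · rw [if_pos hg, mul_one]
        refine le_trans ?_ (class_card p H 1 (∑ j, g j - g (Fin.last d) - g 0) hp)
        have e3 : {n : ℤ // n ∈ Ico (1 : ℤ) (1 + H) ∧
            ((p : ℤ) ∣ Function.update g (Fin.last d) n 0 ∧
            (p : ℤ) ∣ (∑ i, Function.update g (Fin.last d) n i) -
              Function.update g (Fin.last d) n 0)} =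
            {n : ℤ // n ∈ Ico (1 : ℤ) (1 + H) ∧ (p : ℤ) ∣ n +
              (∑ j, g j - g (Fin.last d) - g 0)} := by
          congr 1
          funext n
          rw [Function.update_of_ne h0l, sum_upd]
          apply propext
          constructor
          · rintro ⟨a, _, b⟩
            refine ⟨a, ?_⟩
            have : n + (∑ j, g j - g (Fin.last d)) - g 0 =
              n + (∑ j, g j - g (Fin.last d) - g 0) := by ring
            rwa [this] at b
          · rintro ⟨a, b⟩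
            refine ⟨a, hg, ?_⟩
            have : n + (∑ j, g j - g (Fin.last d)) - g 0 =
              n + (∑ j, g j - g (Fin.last d) - g 0) := by ring
            rwa [this]
        rw [e3]
      · rw [if_neg hg, mul_zero]
        have e4 : IsEmpty {n : ℤ // n ∈ Ico (1 : ℤ) (1 + H) ∧
            ((p : ℤ) ∣ Function.update g (Fin.last d) n 0 ∧
            (p : ℤ) ∣ (∑ i, Function.update g (Fin.last d) n i) -
              Function.update g (Fin.last d) n 0)} := by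
          constructor
          rintro ⟨n, _, hn, _⟩
          rw [Function.update_of_ne h0l] at hn
          exact hg hn
        rw [Nat.card_of_isEmpty]
        simp
    have f2r : ((2 * H + 1 : ℕ) : ℝ) * N2 ≤ (((2 * H + 1 : ℕ) : ℝ) / p + 1) * #(Bx A h) := by
      have e1 : ((2 * H + 1 : ℕ) : ℝ) * N2 = ∑ g ∈ Bx A h, (Nat.card {n : ℤ //
          n ∈ Ico (-(H : ℤ)) (-(H : ℤ) + ((2 * H + 1 : ℕ) : ℤ)) ∧
          (p : ℤ) ∣ Function.update g 0 n 0} : ℝ) := by
        exact_mod_cast f2.symm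
      rw [e1]
      have e2 : (((2 * H + 1 : ℕ) : ℝ) / p + 1) * #(Bx A h) =
          ∑ g ∈ Bx A h, (((2 * H + 1 : ℕ) : ℝ) / p + 1) := by
        rw [sum_const, nsmul_eq_mul, mul_comm]
      rw [e2]
      refine sum_le_sum fun g _ => ?_
      refine le_trans ?_ (class_card p (2 * H + 1) (-(H : ℤ)) 0 hp)
      have e3 : {n : ℤ // n ∈ Ico (-(H : ℤ)) (-(H : ℤ) + ((2 * H + 1 : ℕ) : ℤ)) ∧
          (p : ℤ) ∣ Function.update g 0 n 0} =
          {n : ℤ // n ∈ Ico (-(H : ℤ)) (-(H : ℤ) + ((2 * H + 1 : ℕ) : ℤ)) ∧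
          (p : ℤ) ∣ n + 0} := by
        congr 1
        funext n
        rw [Function.update_self, add_zero]
      rw [e3]
    have g1 : (N1 : ℝ) ≤ (1 / p + 1 / H) * N2 := by
      have e5 : (1 / (p : ℝ) + 1 / H) * N2 = (((H : ℝ) / p + 1) * N2) / H := by field_simp
      rw [e5, le_div_iff₀ hHr, mul_comm]
      exact f1r
    have g2 : (N2 : ℝ) ≤ (1 / p + 1 / (2 * H + 1)) * #(Bx A h) := by
      have hc : (0 : ℝ) < ((2 * H + 1 : ℕ) : ℝ) := by positivity
      have e6 : (1 / (p : ℝ) + 1 / (2 * H + 1)) * #(Bx A h) =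
          ((((2 * H + 1 : ℕ) : ℝ) / p + 1) * #(Bx A h)) / ((2 * H + 1 : ℕ) : ℝ) := by
        have e7 : (2 : ℝ) * H + 1 = ((2 * H + 1 : ℕ) : ℝ) := by push_cast; rfl
        rw [e7]
        generalize ((2 * H + 1 : ℕ) : ℝ) = c at hc
        generalize (#(Bx A h) : ℝ) = b
        field_simp
      rw [e6, le_div_iff₀ hc, mul_comm]
      exact f2r
    rw [hB]
    calc (N1 : ℝ) ≤ (1 / p + 1 / H) * N2 := g1
      _ ≤ (1 / p + 1 / H) * ((1 / p + 1 / (2 * H + 1)) * #(Bx A h)) :=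
          mul_le_mul_of_nonneg_left g2 (by positivity)
      _ = _ := by ring
  · have f2 := hFib d A h 0 (fun c => c 0 = 0)
    rw [hh0, hA0] at f2
    set N2 : ℕ := Nat.card {c : Fin (d + 1) → ℤ // c ∈ Bx A h ∧ c 0 = 0} with hN2
    have f2r : ((2 * H + 1 : ℕ) : ℝ) * N2 ≤ #(Bx A h) := by
      have e1 : ((2 * H + 1 : ℕ) : ℝ) * N2 = ∑ g ∈ Bx A h, (Nat.card {n : ℤ //
          n ∈ Ico (-(H : ℤ)) (-(H : ℤ) + ((2 * H + 1 : ℕ) : ℤ)) ∧
          Function.update g 0 n 0 = 0} : ℝ) := by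
        exact_mod_cast f2.symm
      rw [e1, card_eq_sum_ones, Nat.cast_sum]
      refine sum_le_sum fun g _ => ?_
      have e3 : Subsingleton {n : ℤ // n ∈ Ico (-(H : ℤ)) (-(H : ℤ) + ((2 * H + 1 : ℕ) : ℤ)) ∧
          Function.update g 0 n 0 = 0} := by
        constructor
        rintro ⟨a, _, ha⟩ ⟨b, _, hb⟩
        rw [Function.update_self] at ha hb
        apply Subtype.ext
        simp only
        rw [ha, hb]
      have e4 := Finite.card_le_one_iff_subsingleton.2 e3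
      exact_mod_cast e4
    rw [hB]
    have hc : (0 : ℝ) < 2 * (H : ℝ) + 1 := by positivity
    rw [one_div, inv_mul_eq_div, le_div_iff₀ hc, mul_comm]
    push_cast at f2r
    exact f2r

end Pool.Agent.Helper77.PV
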